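import Mathlib
import Pool.Agent.N417.Theta.Data

set_option autoImplicit false
set_option maxRecDepth 100000

namespace Pool.Agent.N417.Theta

open Tr

def tbl (b : ℕ) : List (Fin 8) := tblL.getD b []
def Cm (b : ℕ) : ℕ := (Cbig >>> (128 * b)) &&& fullMask
def Wm (i : ℕ) : ℕ := (Wbig >>> (128 * i)) &&& fullMask

/-- position of an edge -/
def eix (x y : Fin 8) : ℕ :=
  match x.val, y.val with
  | 0, 2 => 0 | 2, 0 => 0
  | 2, 3 => 1 | 3, 2 => 1
  | 3, 1 => 2 | 1, 3 => 2
  | 0, 4 => 3 | 4, 0 => 3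
  | 4, 5 => 4 | 5, 4 => 4
  | 5, 1 => 5 | 1, 5 => 5
  | 0, 6 => 6 | 6, 0 => 6
  | 6, 7 => 7 | 7, 6 => 7
  | 7, 1 => 8 | 1, 7 => 8
  | _, _ => 9

/-- the `i`-th weight of the edge in position `e` -/
def wN (i e : ℕ) : ℕ := ((WT >>> (27 * i + 3 * e)) &&& 7) + 1

/-- weight of a vertex list -/
def lwN (i : ℕ) : List (Fin 8) → ℕ
  | [] => 0
  | [_] => 0
  | x :: y :: l => wN i (eix x y) + lwN i (y :: l)

/-- the part of `l` between `x` and `y`, read from `x` to `y` -/
def seg (l : List (Fin 8)) (x y : Fin 8) : List (Fin 8) :=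
  if l.idxOf x ≤ l.idxOf y then (l.drop (l.idxOf x)).take (l.idxOf y + 1 - l.idxOf x)
  else ((l.drop (l.idxOf y)).take (l.idxOf x + 1 - l.idxOf y)).reverse

/-- `l'` runs between two vertices of `l` but is not a part of `l` -/
def conflict (l l' : List (Fin 8)) : Bool :=
  match l'.head?, l'.getLast? with
  | some x, some y => l.contains x && l.contains y && (seg l x y != l')
  | _, _ => false

def check : Tr → ℕ → Bool
  | E, _ => false
  | L i, A => Nat.blt i nW && ((A &&& Wm i) == 0)
  | N k c0 c1 c2 c3, A => Nat.blt k 28 &&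
      (!(A.testBit (4 * k)) || check c0 (A &&& Cm (4 * k))) &&
      (!(A.testBit (4 * k + 1)) || check c1 (A &&& Cm (4 * k + 1))) &&
      (!(A.testBit (4 * k + 2)) || check c2 (A &&& Cm (4 * k + 2))) &&
      (!(A.testBit (4 * k + 3)) || check c3 (A &&& Cm (4 * k + 3)))

theorem check_cert : check cert fullMask = true := by decide +kernel

/-- adjacency lists -/
def nb (x : Fin 8) : List (Fin 8) :=
  match x.val with
  | 0 => [2, 4, 6]
  | 1 => [3, 5, 7]
  | 2 => [0, 3]
  | 3 => [2, 1]
  | 4 => [0, 5]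
  | 5 => [4, 1]
  | 6 => [0, 7]
  | _ => [6, 1]

/-- vertex lists of the paths from `u` which avoid `av` -/
def gen : ℕ → Fin 8 → List (Fin 8) → List (List (Fin 8))
  | 0, u, _ => [[u]]
  | n + 1, u, av => [u] :: ((nb u).filter (fun y => !((u :: av).contains y))).flatMap
      (fun y => (gen n y (u :: av)).map (fun l => u :: l))

theorem conf_table : ∀ b < 112, ∀ b' < 112, (Cm b).testBit b' = false →
    tbl b = [] ∨ tbl b' = [] ∨ conflict (tbl b) (tbl b') = true ∨
      conflict (tbl b') (tbl b) = true := by decide +kernel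

theorem full_table : ∀ b < 112, fullMask.testBit b = true ∨ tbl b = [] := by decide +kernel

theorem tbl_big (b : ℕ) (hb : 112 ≤ b) : tbl b = [] := by
  unfold tbl
  rw [List.getD_eq_default]
  have : tblL.length = 112 := by decide +kernel
  omega

theorem gen_table : ∀ u v : Fin 8, u < v → ∃ k < 28, ∀ l ∈ gen 7 u [], l.getLast? = some v →
    (l = tbl (4 * k) ∨ l = tbl (4 * k + 1) ∨ l = tbl (4 * k + 2) ∨ l = tbl (4 * k + 3)) := by
  decide +kernel

theorem gen_table' : ∀ k < 28, ∃ u v : Fin 8, u < v ∧ ∀ l ∈ gen 7 u [], l.getLast? = some v →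
    (l = tbl (4 * k) ∨ l = tbl (4 * k + 1) ∨ l = tbl (4 * k + 2) ∨ l = tbl (4 * k + 3)) := by
  decide +kernel

/-- position `j` of field `k` has minimum weight in its field -/
def shortB (i k j : ℕ) : Bool :=
  (List.range 4).all fun j' => (tbl (4 * k + j')).isEmpty ||
    Nat.ble (lwN i (tbl (4 * k + j))) (lwN i (tbl (4 * k + j')))

theorem w_tableB : ((List.range nW).all fun i => (List.range 28).all fun k =>
    (List.range 4).all fun j => (Wm i).testBit (4 * k + j) || ((tbl (4 * k + j)).isEmpty ||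
      shortB i k j)) = true := by decide +kernel

theorem w_table (i k j j' : ℕ) (hi : i < nW) (hk : k < 28) (hj : j < 4) (hj' : j' < 4)
    (h : (Wm i).testBit (4 * k + j) = false) (hne : tbl (4 * k + j) ≠ [])
    (hne' : tbl (4 * k + j') ≠ []) :
    lwN i (tbl (4 * k + j)) ≤ lwN i (tbl (4 * k + j')) := by
  have h0 := w_tableB
  rw [List.all_eq_true] at h0
  have h1 := h0 i (List.mem_range.2 hi)
  rw [List.all_eq_true] at h1
  have h2 := h1 k (List.mem_range.2 hk)
  rw [List.all_eq_true] at h2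
  have h3 := h2 j (List.mem_range.2 hj)
  rw [h, Bool.false_or, Bool.or_eq_true] at h3
  rcases h3 with h3 | h3
  · exact absurd (List.isEmpty_iff.1 h3) hne
  · unfold shortB at h3
    rw [List.all_eq_true] at h3
    have h4 := h3 j' (List.mem_range.2 hj')
    rw [Bool.or_eq_true] at h4
    rcases h4 with h4 | h4
    · exact absurd (List.isEmpty_iff.1 h4) hne'
    · exact Nat.le_of_ble_eq_true h4

end Pool.Agent.N417.Theta
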