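import Mathlib

set_option autoImplicit false

namespace Pool.Agent.N417.Theta

variable {V : Type}

/-- A path system of a graph: for every two vertices `u`, `v` one path with end vertices `u` and
`v`; the path chosen for `v`, `u` is the one chosen for `u`, `v`, read backwards. -/
structure PathSystem (G : SimpleGraph V) where
  path : ∀ u v : V, G.Walk u v
  isPath : ∀ u v, (path u v).IsPath
  symm : ∀ u v, path v u = (path u v).reverse

/-- A path system is consistent if every subpath of a chosen path is itself chosen. -/
def PathSystem.Consistent {G : SimpleGraph V} (P : PathSystem G) : Prop :=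
  ∀ (u v x y : V) (p : G.Walk u x) (q : G.Walk x y) (r : G.Walk y v),
    P.path u v = p.append (q.append r) → q = P.path x y

/-- The weight of a walk: the sum of the weights of its edges. -/
def weight {G : SimpleGraph V} (w : Sym2 V → ℝ) {u v : V} (p : G.Walk u v) : ℝ :=
  (p.edges.map w).sum

/-- `w` induces `P`: every chosen path has minimum weight among the paths with the same ends. -/
def Induces {G : SimpleGraph V} (w : Sym2 V → ℝ) (P : PathSystem G) : Prop :=
  ∀ (u v : V) (q : G.Walk u v), q.IsPath → weight w (P.path u v) ≤ weight w q

/-- `G` is metrizable: every consistent path system is induced by positive edge weights. -/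
def Metrizable (G : SimpleGraph V) : Prop :=
  ∀ P : PathSystem G, P.Consistent →
    ∃ w : Sym2 V → ℝ, (∀ e ∈ G.edgeSet, 0 < w e) ∧ Induces w P

/-- `Θ_{3,3,3}`: the vertices `s = 0` and `t = 1` are joined by the three paths `0 2 3 1`,
`0 4 5 1` and `0 6 7 1` with three edges each, which share only `0` and `1`. -/
def theta333 : SimpleGraph (Fin 8) :=
  SimpleGraph.fromEdgeSet
    {s(0, 2), s(2, 3), s(3, 1), s(0, 4), s(4, 5), s(5, 1), s(0, 6), s(6, 7), s(7, 1)}

end Pool.Agent.N417.Theta
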