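import Mathlib
import Pool.Agent.N417.Theta.Defs
import Pool.Agent.N417.Theta.Comb

set_option autoImplicit false

namespace Pool.Agent.N417.Theta

open SimpleGraph Tr

/-! ### Walks and their supports -/

section walks

variable {V : Type} {G : SimpleGraph V}

lemma split {u v : V} (p : G.Walk u v) (l1 : List V) (x : V) (l2 : List V)
    (h : p.support = l1 ++ x :: l2) :
    ∃ (p1 : G.Walk u x) (p2 : G.Walk x v), p = p1.append p2 ∧ p1.support = l1 ++ [x] ∧
      p2.support = x :: l2 := by
  induction p generalizing l1 with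
  | nil =>
    rename_i u
    rw [Walk.support_nil] at h
    cases l1 with
    | nil =>
      simp only [List.nil_append, List.cons.injEq] at h
      obtain ⟨rfl, rfl⟩ := h
      exact ⟨Walk.nil, Walk.nil, rfl, rfl, rfl⟩
    | cons a l1 => simp at h
  | cons hadj p' ih =>
    rename_i u w v
    rw [Walk.support_cons] at h
    cases l1 with
    | nil =>
      simp only [List.nil_append, List.cons.injEq] at h
      obtain ⟨rfl, h2⟩ := h
      exact ⟨Walk.nil, Walk.cons hadj p', rfl, rfl, by rw [Walk.support_cons, h2]⟩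
    | cons a l1 =>
      simp only [List.cons_append, List.cons.injEq] at h
      obtain ⟨rfl, h2⟩ := h
      obtain ⟨p1, p2, h3, h4, h5⟩ := ih l1 h2
      exact ⟨Walk.cons hadj p1, p2, by rw [h3]; rfl, by rw [Walk.support_cons, h4]; rfl, h5⟩

/-- the chosen path between two vertices of a chosen path is its part between them -/
lemma infix_eq {P : PathSystem G} (hP : P.Consistent) {u v x y : V} (l1 l2 b : List V)
    (hb : b.head? = some x) (hb' : b.getLast? = some y)
    (h : (P.path u v).support = l1 ++ (b ++ l2)) : (P.path x y).support = b := by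
  obtain ⟨b', rfl⟩ : ∃ b', b = x :: b' := by
    cases b with
    | nil => simp at hb
    | cons a b => simp at hb; exact ⟨b, by rw [hb]⟩
  obtain ⟨p1, p2, h3, h4, h5⟩ := split _ l1 x (b' ++ l2) (by simpa using h)
  obtain ⟨b'', hb''⟩ : ∃ b'', x :: b' = b'' ++ [y] := by
    rcases List.eq_nil_or_concat (x :: b') with h | ⟨b'', z, hz⟩
    · simp at h
    · rw [List.concat_eq_append] at hz
      rw [hz] at hb'
      simp at hb'
      exact ⟨b'', by rw [hz, hb']⟩
  have h6 : p2.support = b'' ++ y :: l2 := by
    rw [h5, ← List.cons_append, hb'']; simp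
  obtain ⟨q, r, h7, h8, h9⟩ := split p2 b'' y l2 h6
  have := hP u v x y p1 q r (by rw [h3, h7])
  rw [← this, h8, ← hb'']

lemma edges_sum (w : Sym2 V → ℝ) {u v : V} (p : G.Walk u v) :
    weight w p.reverse = weight w p := by
  unfold weight
  rw [Walk.edges_reverse, List.map_reverse, List.sum_reverse]

end walks

lemma adj_nb : ∀ x y : Fin 8, theta333.Adj x y → y ∈ nb x := by
  intro x y h
  simp only [theta333, fromEdgeSet_adj, Set.mem_insert_iff, Set.mem_singleton_iff, Sym2.eq_iff] at h
  revert h
  revert x y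
  decide

lemma gen_mem {u v : Fin 8} (p : theta333.Walk u v) : ∀ (n : ℕ) (av : List (Fin 8)),
    p.IsPath → (∀ z ∈ p.support, z ∉ av) → p.length ≤ n → p.support ∈ gen n u av := by
  induction p with
  | nil =>
    intro n av _ _ _
    cases n <;> simp [gen]
  | cons hadj p' ih =>
    rename_i u w v
    intro n av hp hav hn
    rw [Walk.length_cons] at hn
    obtain ⟨m, rfl⟩ : ∃ m, n = m + 1 := ⟨n - 1, by omega⟩
    rw [Walk.cons_isPath_iff] at hp
    have h1 : p'.support ∈ gen m w (u :: av) := by
      apply ih m (u :: av) hp.1 _ (by omega)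
      intro z hz hz'
      rw [List.mem_cons] at hz'
      rcases hz' with rfl | hz'
      · exact hp.2 hz
      · exact hav z (by rw [Walk.support_cons]; exact List.mem_cons_of_mem _ hz) hz'
    rw [gen, Walk.support_cons, List.mem_cons]
    right
    rw [List.mem_flatMap]
    refine ⟨w, ?_, ?_⟩
    · rw [List.mem_filter]
      refine ⟨adj_nb _ _ hadj, ?_⟩
      have h2 : w ∉ u :: av := by
        rw [List.mem_cons]
        rintro (rfl | h)
        · exact theta333.irrefl hadj
        · exact hav w (by rw [Walk.support_cons]; exact List.mem_cons_of_mem _ p'.start_mem_support) h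
      simpa using h2
    · exact List.mem_map.2 ⟨_, h1, rfl⟩

lemma gen_path {u v : Fin 8} (p : theta333.Walk u v) (hp : p.IsPath) :
    p.support ∈ gen 7 u [] ∧ p.support.getLast? = some v := by
  refine ⟨gen_mem p 7 [] hp (by simp) ?_, ?_⟩
  · have := hp.length_lt
    simp only [Fintype.card_fin] at this
    omega
  · rw [List.getLast?_eq_getLast_of_ne_nil p.support_ne_nil, Walk.getLast_support]

/-- the option in position `b` is the chosen one -/
def sat (P : PathSystem theta333) (b : ℕ) : Prop :=
  ∃ u v : Fin 8, u < v ∧ (P.path u v).support = tbl b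

lemma sat_ne {P : PathSystem theta333} {b : ℕ} (h : sat P b) : tbl b ≠ [] := by
  obtain ⟨u, v, _, h⟩ := h
  rw [← h]
  exact Walk.support_ne_nil _

lemma sat_lt {P : PathSystem theta333} {b : ℕ} (h : sat P b) : b < 112 := by
  by_contra hb
  exact sat_ne h (tbl_big b (by omega))

lemma seg_eq {P : PathSystem theta333} (hP : P.Consistent) {u v : Fin 8} (x y : Fin 8)
    (hx : x ∈ (P.path u v).support) (hy : y ∈ (P.path u v).support) :
    (P.path x y).support = seg (P.path u v).support x y := by
  set l := (P.path u v).support with hl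
  have key : ∀ x y : Fin 8, x ∈ l → y ∈ l → l.idxOf x ≤ l.idxOf y →
      (P.path x y).support = (l.drop (l.idxOf x)).take (l.idxOf y + 1 - l.idxOf x) := by
    intro x y hx hy hxy
    have hx' : l.idxOf x < l.length := List.idxOf_lt_length_iff.2 hx
    have hy' : l.idxOf y < l.length := List.idxOf_lt_length_iff.2 hy
    apply infix_eq hP (u := u) (v := v) (l.take (l.idxOf x)) (l.drop (l.idxOf y + 1))
    · rw [List.head?_take]
      rw [if_neg (by omega), List.head?_drop, List.getElem?_eq_getElem hx', List.getElem_idxOf hx']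
    · have h1 : ((l.drop (l.idxOf x)).take (l.idxOf y + 1 - l.idxOf x)).length =
          l.idxOf y + 1 - l.idxOf x := by
        rw [List.length_take, List.length_drop]; omega
      rw [List.getLast?_eq_getElem?, h1, List.getElem?_take_of_lt (by omega), List.getElem?_drop]
      have h2 : l.idxOf x + (l.idxOf y + 1 - l.idxOf x - 1) = l.idxOf y := by omega
      rw [h2, List.getElem?_eq_getElem hy', List.getElem_idxOf hy']
    · rw [← hl]
      have h3 : l.drop (l.idxOf y + 1) = (l.drop (l.idxOf x)).drop (l.idxOf y + 1 - l.idxOf x) := by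
        rw [List.drop_drop]; congr 1; omega
      rw [h3, List.take_append_drop, List.take_append_drop]
  unfold seg
  split_ifs with h
  · exact key x y hx hy h
  · rw [P.symm y x, Walk.support_reverse, key y x hy hx (by omega)]

lemma not_conflict {P : PathSystem theta333} (hP : P.Consistent) {b b' : ℕ} (h : sat P b)
    (h' : sat P b') : conflict (tbl b) (tbl b') = false := by
  obtain ⟨u, v, _, h⟩ := h
  obtain ⟨x, y, _, h'⟩ := h'
  unfold conflict
  have hh : (tbl b').head? = some x := by
    rw [← h', ← Walk.cons_tail_support]; rfl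
  have ht : (tbl b').getLast? = some y := by
    rw [← h', List.getLast?_eq_getLast_of_ne_nil (Walk.support_ne_nil _), Walk.getLast_support]
  rw [hh, ht]
  simp only
  by_contra hcon
  rw [Bool.not_eq_false, Bool.and_eq_true, Bool.and_eq_true, List.contains_iff_mem,
    List.contains_iff_mem, bne_iff_ne] at hcon
  obtain ⟨⟨hx, hy⟩, hne⟩ := hcon
  apply hne
  rw [← h] at hx hy ⊢
  rw [← h', seg_eq hP x y hx hy]

/-- all chosen options are in the mask -/
def Inv (P : PathSystem theta333) (A : ℕ) : Prop := ∀ b, sat P b → A.testBit b = true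

lemma inv_full (P : PathSystem theta333) : Inv P fullMask := by
  intro b hb
  rcases full_table b (sat_lt hb) with h | h
  · exact h
  · exact absurd h (sat_ne hb)

lemma inv_and {P : PathSystem theta333} (hP : P.Consistent) {A b : ℕ} (hA : Inv P A)
    (hb : sat P b) : Inv P (A &&& Cm b) := by
  intro b' hb'
  rw [Nat.testBit_and, hA b' hb', Bool.true_and]
  by_contra hcon
  rw [Bool.not_eq_true] at hcon
  rcases conf_table b (sat_lt hb) b' (sat_lt hb') hcon with h | h | h | h
  · exact sat_ne hb h
  · exact sat_ne hb' h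
  · rw [not_conflict hP hb hb'] at h; exact Bool.false_ne_true h
  · rw [not_conflict hP hb' hb] at h; exact Bool.false_ne_true h

lemma field {P : PathSystem theta333} (k : ℕ) (hk : k < 28) :
    sat P (4 * k) ∨ sat P (4 * k + 1) ∨ sat P (4 * k + 2) ∨ sat P (4 * k + 3) := by
  obtain ⟨u, v, huv, h⟩ := gen_table' k hk
  obtain ⟨h1, h2⟩ := gen_path (P.path u v) (P.isPath u v)
  rcases h _ h1 h2 with h | h | h | h
  · exact Or.inl ⟨u, v, huv, h⟩
  · exact Or.inr (Or.inl ⟨u, v, huv, h⟩)
  · exact Or.inr (Or.inr (Or.inl ⟨u, v, huv, h⟩))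
  · exact Or.inr (Or.inr (Or.inr ⟨u, v, huv, h⟩))

lemma check_sound {P : PathSystem theta333} (hP : P.Consistent) (T : Tr) : ∀ A,
    check T A = true → Inv P A → ∃ i < nW, ∀ b, sat P b → (Wm i).testBit b = false := by
  induction T with
  | E => intro A h; simp [check] at h
  | L i =>
    intro A h hA
    simp only [check, Bool.and_eq_true, beq_iff_eq] at h
    refine ⟨i, by simpa using h.1, fun b hb => ?_⟩
    have h1 : (A &&& Wm i).testBit b = false := by rw [h.2, Nat.zero_testBit]
    rw [Nat.testBit_and, hA b hb, Bool.true_and] at h1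
    exact h1
  | N k c0 c1 c2 c3 ih0 ih1 ih2 ih3 =>
    intro A h hA
    simp only [check, Bool.and_eq_true] at h
    obtain ⟨⟨⟨⟨hk, g0⟩, g1⟩, g2⟩, g3⟩ := h
    rcases field (P := P) k (by simpa using hk) with hs | hs | hs | hs
    · rw [hA _ hs, Bool.not_true, Bool.false_or] at g0
      exact ih0 _ g0 (inv_and hP hA hs)
    · rw [hA _ hs, Bool.not_true, Bool.false_or] at g1
      exact ih1 _ g1 (inv_and hP hA hs)
    · rw [hA _ hs, Bool.not_true, Bool.false_or] at g2
      exact ih2 _ g2 (inv_and hP hA hs)
    · rw [hA _ hs, Bool.not_true, Bool.false_or] at g3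
      exact ih3 _ g3 (inv_and hP hA hs)

/-! ### Weights -/

lemma eix_comm : ∀ x y : Fin 8, eix x y = eix y x := by decide

/-- the `i`-th weight function -/
noncomputable def wf (i : ℕ) : Sym2 (Fin 8) → ℝ :=
  Sym2.lift ⟨fun x y => ((wN i (eix x y) : ℕ) : ℝ), fun x y => by simp only [eix_comm x y]⟩

lemma wf_mk (i : ℕ) (x y : Fin 8) : wf i s(x, y) = ((wN i (eix x y) : ℕ) : ℝ) := rfl

lemma wf_pos (i : ℕ) (e : Sym2 (Fin 8)) : 0 < wf i e := by
  induction e with
  | _ x y =>
    rw [wf_mk]
    have : 0 < wN i (eix x y) := by unfold wN; omega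
    exact_mod_cast this

lemma weight_eq (i : ℕ) {u v : Fin 8} (p : theta333.Walk u v) :
    weight (wf i) p = ((lwN i p.support : ℕ) : ℝ) := by
  induction p with
  | nil => simp [weight, lwN]
  | cons h p' ih =>
    rename_i u w v
    unfold weight at ih ⊢
    rw [Walk.edges_cons, List.map_cons, List.sum_cons, ih, Walk.support_cons,
      ← Walk.cons_tail_support p', lwN, wf_mk]
    push_cast
    rfl

lemma weight_nonneg (i : ℕ) {u v : Fin 8} (p : theta333.Walk u v) : 0 ≤ weight (wf i) p := by
  rw [weight_eq]; positivity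

/-- `Θ_{3,3,3}` is metrizable. -/
theorem main : Metrizable theta333 := by
  intro P hP
  obtain ⟨i, hi, hb⟩ := check_sound hP cert fullMask check_cert (inv_full P)
  refine ⟨wf i, fun e _ => wf_pos i e, ?_⟩
  have key : ∀ (u v : Fin 8) (q : theta333.Walk u v), u < v → q.IsPath →
      weight (wf i) (P.path u v) ≤ weight (wf i) q := by
    intro u v q huv hq
    rw [weight_eq, weight_eq]
    obtain ⟨k, hk, h⟩ := gen_table u v huv
    obtain ⟨h1, h2⟩ := gen_path (P.path u v) (P.isPath u v)
    obtain ⟨h3, h4⟩ := gen_path q hq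
    obtain ⟨j, hj, hj'⟩ : ∃ j < 4, (P.path u v).support = tbl (4 * k + j) := by
      rcases h _ h1 h2 with h | h | h | h
      · exact ⟨0, by omega, h⟩
      · exact ⟨1, by omega, h⟩
      · exact ⟨2, by omega, h⟩
      · exact ⟨3, by omega, h⟩
    obtain ⟨j', hj2, hj2'⟩ : ∃ j < 4, q.support = tbl (4 * k + j) := by
      rcases h _ h3 h4 with h | h | h | h
      · exact ⟨0, by omega, h⟩
      · exact ⟨1, by omega, h⟩
      · exact ⟨2, by omega, h⟩
      · exact ⟨3, by omega, h⟩
    have hs : sat P (4 * k + j) := ⟨u, v, huv, hj'⟩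
    have := w_table i k j j' hi hk hj hj2 (hb _ hs) (sat_ne hs)
      (by rw [← hj2']; exact Walk.support_ne_nil _)
    rw [hj', hj2']
    exact_mod_cast this
  intro u v q hq
  rcases lt_trichotomy u v with huv | rfl | huv
  · exact key u v q huv hq
  · have : P.path u u = Walk.nil := (Walk.isPath_iff_nil.1 (P.isPath u u)).eq_nil
    rw [this]
    have h0 : weight (wf i) (Walk.nil : theta333.Walk u u) = 0 := by simp [weight]
    rw [h0]
    exact weight_nonneg i q
  · have := key v u q.reverse huv hq.reverse
    rwa [P.symm u v, edges_sum, edges_sum] at this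

end Pool.Agent.N417.Theta
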